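import Mathlib

/-!
# Channel simulation with one ancilla qubit, projective measurements and adaptive unitaries

Definitions for MP_796113_mp.
-/

set_option autoImplicit false

namespace Pool.Agent.N666.CS

open Matrix MeasureTheory
open scoped Kronecker ComplexOrder

/-- Operators on the system `ℂ^d`. -/
abbrev Op (d : ℕ) : Type := Matrix (Fin d) (Fin d) ℂ

/-- Operators on `ℂ^d ⊗ ℂ²`: the system together with the ancilla qubit. -/
abbrev Op2 (d : ℕ) : Type := Matrix (Fin d × Fin 2) (Fin d × Fin 2) ℂ

/-- Density operators on `ℂ^d`. -/
def IsState {d : ℕ} (ρ : Op d) : Prop := ρ.PosSemidef ∧ ρ.trace = 1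

/-- Quantum channels on `ℂ^d`: completely positive (that is, of Kraus form), trace preserving. -/
def IsChannel {d : ℕ} (Φ : Op d →ₗ[ℂ] Op d) : Prop :=
  (∃ (m : ℕ) (K : Fin m → Op d), ∀ X, Φ X = ∑ i, K i * X * (K i)ᴴ) ∧
    ∀ X, (Φ X).trace = X.trace

/-- What is done for a fixed value of the classical randomness: stop and declare success or
failure; or apply an operator `U` (a unitary) to system and ancilla and go on; or perform a
projective measurement with projectors `P 0, …, P (k-1)` on system and ancilla and go on with
the protocol `next i` when the outcome is `i`. -/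
inductive Protocol (d : ℕ) : Type
  | stop (success : Bool) : Protocol d
  | unitary (U : Op2 d) (next : Protocol d) : Protocol d
  | measure (k : ℕ) (P : Fin k → Op2 d) (next : Fin k → Protocol d) : Protocol d

/-- All operators used as unitaries are unitary and all measurements are projective. -/
def Protocol.Valid {d : ℕ} : Protocol d → Prop
  | .stop _ => True
  | .unitary U next => U ∈ unitaryGroup (Fin d × Fin 2) ℂ ∧ next.Valid
  | .measure _ P next =>
      (∀ i, (P i).IsHermitian) ∧ (∀ i j, P i * P j = if i = j then P i else 0) ∧
        ∑ i, P i = 1 ∧ ∀ i, (next i).Valid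

/-- The number of rounds: the largest number of measurements on any run. -/
def Protocol.rounds {d : ℕ} : Protocol d → ℕ
  | .stop _ => 0
  | .unitary _ next => next.rounds
  | .measure _ _ next => 1 + Finset.univ.sup fun i => (next i).rounds

/-- The unnormalised final state of system and ancilla, summed over the successful runs, when
the protocol is started in the state `ρ` of system and ancilla. -/
def Protocol.run {d : ℕ} : Protocol d → Op2 d → Op2 d
  | .stop success, ρ => if success then ρ else 0
  | .unitary U next, ρ => next.run (U * ρ * Uᴴ)
  | .measure _ P next, ρ => ∑ i, (next i).run (P i * ρ * (P i)ᴴ)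

/-- The ancilla qubit is prepared in the state `|0⟩`. -/
def attach {d : ℕ} (ρ : Op d) : Op2 d := ρ ⊗ₖ (Matrix.single 0 0 1 : Matrix (Fin 2) (Fin 2) ℂ)

/-- The ancilla qubit is discarded (partial trace). -/
def discard {d : ℕ} (M : Op2 d) : Op d := Matrix.of fun a b => ∑ c, M (a, c) (b, c)

/-- The unnormalised output on success, for a fixed value of the classical randomness: its trace
is the probability of success. -/
def Protocol.output {d : ℕ} (π : Protocol d) (ρ : Op d) : Op d := discard (π.run (attach ρ))

/-- The unnormalised output on success of the randomised protocol which follows `π ω`, where `ω`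
is the classical randomness, distributed according to `μ`. -/
noncomputable def avgOutput {d : ℕ} {Ω : Type} [MeasurableSpace Ω] (μ : Measure Ω)
    (π : Ω → Protocol d) (ρ : Op d) : Op d :=
  Matrix.of fun a b => ∫ ω, (π ω).output ρ a b ∂μ

/-- A randomised protocol with at most `R` rounds. The classical randomness `ω` is distributed
according to the probability measure `μ`; all operations may depend on `ω` and on the earlier
measurement outcomes; the outputs depend measurably on `ω`. -/
structure IsProtocol {d : ℕ} {Ω : Type} [MeasurableSpace Ω] (μ : Measure Ω)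
    (π : Ω → Protocol d) (R : ℕ) : Prop where
  prob : IsProbabilityMeasure μ
  valid : ∀ ω, (π ω).Valid
  rounds_le : ∀ ω, (π ω).rounds ≤ R
  meas : ∀ ρ : Op d, IsState ρ → ∀ a b, AEStronglyMeasurable (fun ω => (π ω).output ρ a b) μ

/-- The randomised protocol simulates `Φ` with success probability `q`: on every input state,
success occurs with probability `q`, and conditioned on success the output is `Φ ρ`. -/
structure Simulates {d : ℕ} {Ω : Type} [MeasurableSpace Ω] (μ : Measure Ω)
    (π : Ω → Protocol d) (Φ : Op d →ₗ[ℂ] Op d) (q : ℝ) : Prop where
  success : ∀ ρ : Op d, IsState ρ → (avgOutput μ π ρ).trace = q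
  output : ∀ ρ : Op d, IsState ρ → (q : ℂ)⁻¹ • avgOutput μ π ρ = Φ ρ

end Pool.Agent.N666.CS
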