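import Mathlib

/-!
# A family of unit vectors in `ℝ^D`

Unit vectors `x a ∈ ℝ^D`, `a < d`, among them the standard basis, such that every nonzero `g` is
orthogonal to less than a third of them and has a large scalar product with one of them.
-/

set_option autoImplicit false

namespace Pool.Agent.N666.CS

open Finset

/-- Evaluations of a nonzero vector on the moment curve: at most `D` zeros. -/
theorem card_zeros_le (D M : ℕ) (g : Fin D → ℂ) (hg : g ≠ 0) :
    (univ.filter fun t : Fin M => ∑ i : Fin D, ((t : ℕ) : ℂ) ^ (i : ℕ) * g i = 0).card ≤ D := by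
  classical
  set p : Polynomial ℂ := ∑ i : Fin D, Polynomial.C (g i) * Polynomial.X ^ (i : ℕ) with hp
  have hcoeff : ∀ i : Fin D, p.coeff i = g i := by
    intro i
    rw [hp, Polynomial.finset_sum_coeff]
    simp only [Polynomial.coeff_C_mul, Polynomial.coeff_X_pow]
    rw [Finset.sum_eq_single i]
    · simp
    · intro j _ hj
      rw [if_neg, mul_zero]
      intro h
      exact hj (Fin.ext h.symm)
    · intro h; exact absurd (mem_univ i) h
  have hp0 : p ≠ 0 := by
    intro h
    apply hg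
    funext i
    rw [← hcoeff i, h]
    simp
  have hdeg : p.natDegree ≤ D := by
    refine Polynomial.natDegree_sum_le_of_forall_le _ _ fun i _ => ?_
    refine (Polynomial.natDegree_C_mul_X_pow_le _ _).trans i.2.le
  have hroots : (univ.filter fun t : Fin M => ∑ i : Fin D, ((t : ℕ) : ℂ) ^ (i : ℕ) * g i = 0).card
      ≤ p.roots.toFinset.card := by
    refine Finset.card_le_card_of_injOn (fun t => ((t : ℕ) : ℂ)) ?_ ?_
    · intro t ht
      simp only [coe_filter, mem_univ, true_and, Set.mem_setOf_eq] at ht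
      simp only [mem_coe, Multiset.mem_toFinset]
      rw [Polynomial.mem_roots hp0, Polynomial.IsRoot, hp, Polynomial.eval_finset_sum]
      simp only [Polynomial.eval_mul, Polynomial.eval_C, Polynomial.eval_pow, Polynomial.eval_X]
      rw [← ht]
      exact Finset.sum_congr rfl fun i _ => mul_comm _ _
    · intro s _ t _ h
      simp only [Nat.cast_inj] at h
      exact Fin.ext h
  calc _ ≤ p.roots.toFinset.card := hroots
    _ ≤ Multiset.card p.roots := Multiset.toFinset_card_le _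
    _ ≤ p.natDegree := Polynomial.card_roots' p
    _ ≤ D := hdeg

/-- A finite net of the real unit sphere. -/
theorem exists_net (D : ℕ) : ∃ t : Finset (EuclideanSpace ℝ (Fin D)),
    (∀ x ∈ t, ‖x‖ = 1) ∧ ∀ u : EuclideanSpace ℝ (Fin D), ∃ c : ℝ, 0 ≤ c ∧
      (u = 0 ∨ ∃ x ∈ t, ‖u‖ ^ 2 ≤ 4 / 3 * (inner ℝ x u) ^ 2) := by
  obtain ⟨t, ht, htf, hcov⟩ := (isCompact_sphere (0 : EuclideanSpace ℝ (Fin D)) 1).finite_cover_balls
    (e := 1 / 2) (by norm_num)
  refine ⟨htf.toFinset, fun x hx => ?_, fun u => ⟨0, le_rfl, ?_⟩⟩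
  · have := ht (htf.mem_toFinset.1 hx)
    simpa using this
  · by_cases hu : u = 0
    · exact Or.inl hu
    right
    have hun : ‖u‖ ≠ 0 := norm_ne_zero_iff.2 hu
    have hmem : (‖u‖⁻¹ • u) ∈ Metric.sphere (0 : EuclideanSpace ℝ (Fin D)) 1 := by
      simp only [mem_sphere_iff_norm, sub_zero, norm_smul, norm_inv, norm_norm]
      exact inv_mul_cancel₀ hun
    have h2 := hcov hmem
    simp only [Set.mem_iUnion, Metric.mem_ball, exists_prop] at h2
    obtain ⟨x, hx, hd⟩ := h2
    refine ⟨x, htf.mem_toFinset.2 hx, ?_⟩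
    have hx1 : ‖x‖ = 1 := by simpa using ht hx
    rw [dist_eq_norm] at hd
    have h3 : ‖‖u‖⁻¹ • u - x‖ ^ 2 < 1 / 4 := by
      have := norm_nonneg (‖u‖⁻¹ • u - x)
      nlinarith
    rw [norm_sub_sq_real, hx1, norm_smul, norm_inv, norm_norm, inv_mul_cancel₀ hun,
      inner_smul_left] at h3
    simp only [RCLike.conj_to_real] at h3
    have h4 : 7 / 8 < ‖u‖⁻¹ * inner ℝ u x := by nlinarith
    rw [real_inner_comm] at h4
    have hupos : 0 < ‖u‖ := lt_of_le_of_ne (norm_nonneg u) (Ne.symm hun)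
    have h5 : 7 / 8 * ‖u‖ < inner ℝ x u := by
      have := mul_lt_mul_of_pos_right h4 hupos
      calc 7 / 8 * ‖u‖ < ‖u‖⁻¹ * inner ℝ x u * ‖u‖ := this
        _ = inner ℝ x u := by field_simp
    nlinarith

/-- The family of vectors. -/
theorem exists_family (D : ℕ) : ∃ d : ℕ, 2 ≤ d ∧ ∃ x : Fin d → Fin D → ℝ,
    (∀ a, ∑ i, x a i ^ 2 = 1 ∨ D = 0) ∧
    (∃ n : Fin D → Fin d, ∀ i, x (n i) = Pi.single i 1) ∧
    (∀ g : Fin D → ℂ, g ≠ 0 →
      3 * (univ.filter fun a : Fin d => ∑ i, (x a i : ℂ) * g i = 0).card < d) ∧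
    ∀ g : Fin D → ℂ, g = 0 ∨ ∃ a, ∑ i, ‖g i‖ ^ 2 ≤ 4 * ‖∑ i, (x a i : ℂ) * g i‖ ^ 2 := by
  classical
  obtain ⟨t, ht1, ht2⟩ := exists_net D
  set M : ℕ := 3 * (2 * D + t.card) + 2 with hM
  -- the norm of the point of the moment curve
  set N : ℕ → ℝ := fun m => Real.sqrt (∑ i : Fin D, ((m : ℝ) ^ (i : ℕ)) ^ 2) with hN
  let ι : Type := (Fin D ⊕ {y // y ∈ t}) ⊕ Fin M
  let y : ι → Fin D → ℝ := Sum.elim (Sum.elim (fun i => Pi.single i 1) (fun z => WithLp.ofLp z.1))
    (fun m i => (N m)⁻¹ * (m : ℝ) ^ (i : ℕ))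
  have hcard : Fintype.card ι = (D + t.card) + M := by
    simp [ι]
  let e : Fin (Fintype.card ι) ≃ ι := (Fintype.equivFin ι).symm
  have hNpos : ∀ m : ℕ, D ≠ 0 → 0 < ∑ i : Fin D, ((m : ℝ) ^ (i : ℕ)) ^ 2 := by
    intro m hD
    have h0 : (0 : ℝ) < ((m : ℝ) ^ ((⟨0, Nat.pos_of_ne_zero hD⟩ : Fin D) : ℕ)) ^ 2 := by simp
    exact Finset.sum_pos' (fun i _ => sq_nonneg _) ⟨_, mem_univ _, h0⟩
  refine ⟨Fintype.card ι, by rw [hcard]; omega, fun a => y (e a), ?_, ?_, ?_, ?_⟩
  · intro a
    by_cases hD : D = 0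
    · exact Or.inr hD
    left
    have hy : ∀ b : ι, ∑ i, y b i ^ 2 = 1 := by
      rintro ((i | z) | m)
      · simp only [y, Sum.elim_inl]
        rw [Finset.sum_eq_single i]
        · simp
        · intro j _ hj; simp [Pi.single_eq_of_ne hj]
        · intro h; exact absurd (mem_univ i) h
      · simp only [y, Sum.elim_inl, Sum.elim_inr]
        have := ht1 z.1 z.2
        rw [EuclideanSpace.norm_eq, Real.sqrt_eq_one] at this
        rw [← this]
        refine Finset.sum_congr rfl fun i _ => ?_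
        rw [Real.norm_eq_abs, sq_abs]
      · simp only [y, Sum.elim_inr]
        have hp := hNpos m hD
        have h1 : ∀ i : Fin D, ((N m)⁻¹ * (m : ℝ) ^ (i : ℕ)) ^ 2 =
            ((N m) ^ 2)⁻¹ * ((m : ℝ) ^ (i : ℕ)) ^ 2 := by
          intro i; rw [mul_pow, inv_pow]
        rw [Finset.sum_congr rfl fun i _ => h1 i, ← Finset.mul_sum, hN]
        simp only
        rw [Real.sq_sqrt hp.le]
        exact inv_mul_cancel₀ hp.ne'
    exact hy (e a)
  · refine ⟨fun i => e.symm (Sum.inl (Sum.inl i)), fun i => ?_⟩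
    simp [y]
  · intro g hg
    have hD : D ≠ 0 := by
      rintro rfl
      exact hg (Subsingleton.elim _ _)
    have h1 : (univ.filter fun a : Fin (Fintype.card ι) => ∑ i, (y (e a) i : ℂ) * g i = 0).card =
        (univ.filter fun b : ι => ∑ i, (y b i : ℂ) * g i = 0).card := by
      refine Finset.card_bij (fun a _ => e a) ?_ ?_ ?_
      · intro a ha; simpa using ha
      · intro a _ b _ h; exact e.injective h
      · intro b hb; exact ⟨e.symm b, by simpa using hb, by simp⟩
    have h2 : (univ.filter fun b : ι => ∑ i, (y b i : ℂ) * g i = 0).card ≤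
        (D + t.card) + D := by
      have h3 : (univ.filter fun b : ι => ∑ i, (y b i : ℂ) * g i = 0) ⊆
          (univ.image (Sum.inl : Fin D ⊕ {y // y ∈ t} → ι)) ∪
            ((univ.filter fun m : Fin M => ∑ i : Fin D, ((m : ℕ) : ℂ) ^ (i : ℕ) * g i = 0).image
              (Sum.inr : Fin M → ι)) := by
        intro b hb
        rcases b with b | m
        · exact mem_union_left _ (mem_image_of_mem _ (mem_univ b))
        · refine mem_union_right _ (mem_image_of_mem _ ?_)
          simp only [mem_filter, mem_univ, true_and, y, Sum.elim_inr] at hb ⊢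
          have hp := hNpos m hD
          have hNm : (N m : ℂ) ≠ 0 := by
            have : N m ≠ 0 := (Real.sqrt_pos.2 hp).ne'
            exact_mod_cast this
          have h4 : ∑ i : Fin D, (((N m)⁻¹ * (m : ℝ) ^ (i : ℕ) : ℝ) : ℂ) * g i =
              (N m : ℂ)⁻¹ * ∑ i : Fin D, ((m : ℕ) : ℂ) ^ (i : ℕ) * g i := by
            rw [Finset.mul_sum]
            refine Finset.sum_congr rfl fun i _ => ?_
            push_cast
            ring
          rw [h4] at hb
          rcases mul_eq_zero.1 hb with h5 | h5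
          · exact absurd (inv_eq_zero.1 h5) hNm
          · exact h5
      refine (card_le_card h3).trans ((card_union_le _ _).trans ?_)
      refine Nat.add_le_add ?_ ?_
      · refine card_image_le.trans ?_
        simp
      · exact card_image_le.trans (card_zeros_le D M g hg)
    rw [h1, hcard]
    omega
  · intro g
    by_cases hg : g = 0
    · exact Or.inl hg
    right
    set u : EuclideanSpace ℝ (Fin D) := WithLp.toLp 2 fun i => (g i).re with hu
    set v : EuclideanSpace ℝ (Fin D) := WithLp.toLp 2 fun i => (g i).im with hv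
    have hnu : ‖u‖ ^ 2 = ∑ i, (g i).re ^ 2 := by
      rw [EuclideanSpace.norm_sq_eq]
      refine Finset.sum_congr rfl fun i _ => ?_
      rw [Real.norm_eq_abs, sq_abs]
    have hnv : ‖v‖ ^ 2 = ∑ i, (g i).im ^ 2 := by
      rw [EuclideanSpace.norm_sq_eq]
      refine Finset.sum_congr rfl fun i _ => ?_
      rw [Real.norm_eq_abs, sq_abs]
    have hsum : ∑ i, ‖g i‖ ^ 2 = ‖u‖ ^ 2 + ‖v‖ ^ 2 := by
      rw [hnu, hnv, ← Finset.sum_add_distrib]
      refine Finset.sum_congr rfl fun i _ => ?_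
      rw [← Complex.normSq_eq_norm_sq, Complex.normSq_apply]
      ring
    have hpos : 0 < ∑ i, ‖g i‖ ^ 2 := by
      obtain ⟨i, hi⟩ := Function.ne_iff.1 hg
      have : 0 < ‖g i‖ := norm_pos_iff.2 hi
      exact Finset.sum_pos' (fun j _ => sq_nonneg _) ⟨i, mem_univ _, by positivity⟩
    have hinner : ∀ (z : EuclideanSpace ℝ (Fin D)),
        ‖∑ i, ((WithLp.ofLp z i : ℝ) : ℂ) * g i‖ ^ 2 = (inner ℝ z u) ^ 2 + (inner ℝ z v) ^ 2 := by
      intro z
      rw [← Complex.normSq_eq_norm_sq, Complex.normSq_apply]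
      have h1 : (∑ i, ((WithLp.ofLp z i : ℝ) : ℂ) * g i).re = inner ℝ z u := by
        rw [Complex.re_sum, PiLp.inner_apply]
        refine Finset.sum_congr rfl fun i _ => ?_
        simp [hu, mul_comm]
      have h2 : (∑ i, ((WithLp.ofLp z i : ℝ) : ℂ) * g i).im = inner ℝ z v := by
        rw [Complex.im_sum, PiLp.inner_apply]
        refine Finset.sum_congr rfl fun i _ => ?_
        simp [hv, mul_comm]
      rw [h1, h2]
      ring
    rcases le_total (‖v‖ ^ 2) (‖u‖ ^ 2) with huv | huv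
    · obtain ⟨c, _, h0 | ⟨x, hx, hxu⟩⟩ := ht2 u
      · rw [h0] at huv hsum
        simp only [norm_zero, ne_eq, OfNat.ofNat_ne_zero, not_false_eq_true, zero_pow] at huv hsum
        linarith
      · refine ⟨e.symm (Sum.inl (Sum.inr ⟨x, hx⟩)), ?_⟩
        have h3 : y (e (e.symm (Sum.inl (Sum.inr ⟨x, hx⟩)))) = WithLp.ofLp x := by simp [y]
        beta_reduce
        rw [h3, hinner, hsum]
        nlinarith [sq_nonneg (inner ℝ x v)]
    · obtain ⟨c, _, h0 | ⟨x, hx, hxu⟩⟩ := ht2 v
      · rw [h0] at huv hsum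
        simp only [norm_zero, ne_eq, OfNat.ofNat_ne_zero, not_false_eq_true, zero_pow] at huv hsum
        linarith
      · refine ⟨e.symm (Sum.inl (Sum.inr ⟨x, hx⟩)), ?_⟩
        have h3 : y (e (e.symm (Sum.inl (Sum.inr ⟨x, hx⟩)))) = WithLp.ofLp x := by simp [y]
        beta_reduce
        rw [h3, hinner, hsum]
        nlinarith [sq_nonneg (inner ℝ x u)]

end Pool.Agent.N666.CS
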