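import Pool.Agent.N666.CS.Tree
import Pool.Agent.N666.CS.Family

/-!
# The main bound
-/

set_option autoImplicit false

namespace Pool.Agent.N666.CS

open Matrix MeasureTheory
open scoped Kronecker ComplexOrder

variable {d : ℕ}

/-- the vector `v ⊗ e₀` -/
def lift (v : Fin d → ℂ) : Fin d × Fin 2 → ℂ := fun p => if p.2 = 0 then v p.1 else 0

/-- `|v⟩⟨v|` -/
def pureState (v : Fin d → ℂ) : Op d := vecMulVec v (star v)

theorem pureState_isState {v : Fin d → ℂ} (hv : nsq v = 1) : IsState (pureState v) := by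
  refine ⟨Matrix.posSemidef_vecMulVec_self_star v, ?_⟩
  have h1 : (pureState v).trace = star v ⬝ᵥ v := by
    simp only [pureState, trace, diag_apply, vecMulVec_apply, dotProduct]
    exact Finset.sum_congr rfl fun i _ => mul_comm _ _
  rw [h1, star_dot_self, hv, Complex.ofReal_one]

theorem attach_pure (v : Fin d → ℂ) :
    attach (pureState v) = vecMulVec (lift v) (star (lift v)) := by
  ext ⟨a, b⟩ ⟨a', b'⟩
  simp only [attach, pureState, kroneckerMap_apply, vecMulVec_apply, lift, Pi.star_apply,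
    Matrix.single_apply]
  fin_cases b <;> fin_cases b' <;> simp

theorem nsq_lift (v : Fin d → ℂ) : nsq (lift v) = nsq v := by
  unfold nsq lift
  rw [Fintype.sum_prod_type]
  refine Finset.sum_congr rfl fun i _ => ?_
  simp [Fin.sum_univ_two]

theorem mulVec_lift_single (L : Op2 d) (a' a : Fin d) (c : Fin 2) :
    (L *ᵥ lift (Pi.single a' 1)) (a, c) = L (a, c) (a', 0) := by
  simp only [mulVec, dotProduct, lift]
  rw [Fintype.sum_prod_type, Finset.sum_eq_single a']
  · simp [Fin.sum_univ_two]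
  · intro b _ hb; simp [Pi.single_eq_of_ne hb]
  · intro h; exact absurd (Finset.mem_univ _) h

theorem output_pure (π : Protocol d) (v : Fin d → ℂ) (a b : Fin d) :
    π.output (pureState v) a b =
      π.leafSum fun L => ∑ c, (L *ᵥ lift v) (a, c) * star ((L *ᵥ lift v) (b, c)) := by
  unfold Protocol.output discard
  rw [Matrix.of_apply, run_eq, attach_pure, leafSum_sum]
  refine Finset.sum_congr rfl fun c _ => ?_
  have h := map_leafSum (Matrix.entryAddMonoidHom ℂ (a, c) (b, c)) π
    (fun L => L * vecMulVec (lift v) (star (lift v)) * Lᴴ)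
  refine h.trans ?_
  congr 1
  funext L
  show (L * vecMulVec (lift v) (star (lift v)) * Lᴴ) (a, c) (b, c) = _
  rw [Matrix.mul_vecMulVec, Matrix.vecMulVec_mul, ← star_mulVec]
  rfl

/-- squared norm of the component of `L (v ⊗ e₀)` along `t` -/
noncomputable def test (t v : Fin d → ℂ) (L : Op2 d) : ℝ :=
  ∑ c, ‖∑ a, star (t a) * (L *ᵥ lift v) (a, c)‖ ^ 2

theorem test_nonneg (t v : Fin d → ℂ) (L : Op2 d) : 0 ≤ test t v L :=
  Finset.sum_nonneg fun _ _ => sq_nonneg _

theorem test_eq (π : Protocol d) (t v : Fin d → ℂ) :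
    ((π.leafSum (test t v) : ℝ) : ℂ) =
      ∑ a, ∑ b, star (t a) * t b * π.output (pureState v) a b := by
  have h1 : ∀ a b, star (t a) * t b * π.output (pureState v) a b =
      π.leafSum fun L => star (t a) * t b *
        ∑ c, (L *ᵥ lift v) (a, c) * star ((L *ᵥ lift v) (b, c)) := by
    intro a b
    rw [output_pure]
    exact map_leafSum (AddMonoidHom.mulLeft (star (t a) * t b)) π _
  simp only [h1]
  have h2 : ∀ a, (∑ b, π.leafSum fun L => star (t a) * t b *
        ∑ c, (L *ᵥ lift v) (a, c) * star ((L *ᵥ lift v) (b, c))) =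
      π.leafSum fun L => ∑ b, star (t a) * t b *
        ∑ c, (L *ᵥ lift v) (a, c) * star ((L *ᵥ lift v) (b, c)) := fun a =>
    (leafSum_sum π _ _).symm
  simp only [h2]
  rw [← leafSum_sum]
  refine (map_leafSum Complex.ofRealHom.toAddMonoidHom π (test t v)).trans ?_
  congr 1
  funext L
  show ((test t v L : ℝ) : ℂ) = _
  unfold test
  rw [Complex.ofReal_sum]
  have h3 : ∀ c : Fin 2, ((‖∑ a, star (t a) * (L *ᵥ lift v) (a, c)‖ ^ 2 : ℝ) : ℂ) =
      ∑ a, ∑ b, star (t a) * t b * ((L *ᵥ lift v) (a, c) * star ((L *ᵥ lift v) (b, c))) := by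
    intro c
    rw [Complex.ofReal_pow, ← Complex.mul_conj', ← RCLike.star_def, star_sum,
      Finset.sum_mul_sum]
    refine Finset.sum_congr rfl fun a _ => Finset.sum_congr rfl fun b _ => ?_
    rw [star_mul', star_star]
    ring
  rw [Finset.sum_congr rfl fun c _ => h3 c, Finset.sum_comm]
  refine Finset.sum_congr rfl fun a _ => ?_
  rw [Finset.sum_comm]
  refine Finset.sum_congr rfl fun b _ => ?_
  rw [Finset.mul_sum]

theorem test_le (t v : Fin d → ℂ) (L : Op2 d) : test t v L ≤ nsq t * nsq (L *ᵥ lift v) := by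
  have h1 : nsq (L *ᵥ lift v) = ∑ c, ∑ a, ‖(L *ᵥ lift v) (a, c)‖ ^ 2 := by
    unfold nsq
    rw [Fintype.sum_prod_type, Finset.sum_comm]
  rw [h1, Finset.mul_sum]
  unfold test
  refine Finset.sum_le_sum fun c _ => ?_
  have h2 : ‖∑ a, star (t a) * (L *ᵥ lift v) (a, c)‖ ≤
      ∑ a, ‖t a‖ * ‖(L *ᵥ lift v) (a, c)‖ := by
    refine (norm_sum_le _ _).trans (le_of_eq ?_)
    refine Finset.sum_congr rfl fun a _ => ?_
    rw [norm_mul, norm_star]
  calc ‖∑ a, star (t a) * (L *ᵥ lift v) (a, c)‖ ^ 2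
      ≤ (∑ a, ‖t a‖ * ‖(L *ᵥ lift v) (a, c)‖) ^ 2 := pow_le_pow_left₀ (norm_nonneg _) h2 2
    _ ≤ (∑ a, ‖t a‖ ^ 2) * ∑ a, ‖(L *ᵥ lift v) (a, c)‖ ^ 2 :=
        Finset.sum_mul_sq_le_sq_mul_sq _ _ _

theorem leafSum_test_le {π : Protocol d} (hπ : π.Valid) (t v : Fin d → ℂ) :
    π.leafSum (test t v) ≤ nsq t * nsq v := by
  calc π.leafSum (test t v) ≤ π.leafSum fun L => nsq t * nsq (L *ᵥ lift v) :=
        leafSum_mono π fun L => test_le t v L
    _ = nsq t * π.leafSum fun L => nsq (L *ᵥ lift v) := leafSum_mul _ _ _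
    _ ≤ nsq t * nsq (lift v) := mul_le_mul_of_nonneg_left (leafSum_nsq_le hπ _) (nsq_nonneg _)
    _ = nsq t * nsq v := by rw [nsq_lift]

theorem norm_output_le {π : Protocol d} (hπ : π.Valid) (v : Fin d → ℂ) (a b : Fin d) :
    ‖π.output (pureState v) a b‖ ≤ nsq v := by
  rw [output_pure]
  refine (norm_leafSum_le _ _).trans ?_
  calc (π.leafSum fun L => ‖∑ c, (L *ᵥ lift v) (a, c) * star ((L *ᵥ lift v) (b, c))‖)
      ≤ π.leafSum fun L => nsq (L *ᵥ lift v) := by
        refine leafSum_mono π fun L => ?_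
        have h1 : ∀ a', ∑ c, ‖(L *ᵥ lift v) (a', c)‖ ^ 2 ≤ nsq (L *ᵥ lift v) := by
          intro a'
          unfold nsq
          rw [Fintype.sum_prod_type]
          exact Finset.single_le_sum
            (f := fun a' => ∑ c, ‖(L *ᵥ lift v) (a', c)‖ ^ 2)
            (fun j _ => Finset.sum_nonneg fun _ _ => sq_nonneg _) (Finset.mem_univ a')
        have h2 : ‖∑ c, (L *ᵥ lift v) (a, c) * star ((L *ᵥ lift v) (b, c))‖ ≤
            ∑ c, (‖(L *ᵥ lift v) (a, c)‖ ^ 2 + ‖(L *ᵥ lift v) (b, c)‖ ^ 2) / 2 := by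
          refine (norm_sum_le _ _).trans (Finset.sum_le_sum fun c _ => ?_)
          rw [norm_mul, norm_star]
          nlinarith [sq_nonneg (‖(L *ᵥ lift v) (a, c)‖ - ‖(L *ᵥ lift v) (b, c)‖)]
        rw [← Finset.sum_div, Finset.sum_add_distrib] at h2
        have := h1 a
        have := h1 b
        linarith
    _ ≤ nsq (lift v) := leafSum_nsq_le hπ _
    _ = nsq v := nsq_lift v

theorem integral_test {Ω : Type} [MeasurableSpace Ω] {μ : Measure Ω} {π : Ω → Protocol d}
    {R : ℕ} (hP : IsProtocol μ π R) {Φ : Op d →ₗ[ℂ] Op d} {q : ℝ} (hq : 0 < q)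
    (hs : Simulates μ π Φ q) {v : Fin d → ℂ} (hv : nsq v = 1) (t : Fin d → ℂ) :
    Integrable (fun ω => (π ω).leafSum (test t v)) μ ∧
      ((∫ ω, (π ω).leafSum (test t v) ∂μ : ℝ) : ℂ) =
        q * ∑ a, ∑ b, star (t a) * t b * Φ (pureState v) a b := by
  have := hP.prob
  have hst := pureState_isState hv
  have hint : ∀ a b, Integrable (fun ω => (π ω).output (pureState v) a b) μ := by
    intro a b
    refine Integrable.of_bound (hP.meas _ hst a b) 1 (Filter.Eventually.of_forall fun ω => ?_)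
    rw [← hv]
    exact norm_output_le (hP.valid ω) v a b
  have hint2 : Integrable (fun ω => ∑ a, ∑ b, star (t a) * t b * (π ω).output (pureState v) a b)
      μ := by
    refine integrable_finsetSum _ fun a _ => integrable_finsetSum _ fun b _ => ?_
    exact (hint a b).const_mul _
  have hint3 : Integrable (fun ω => (π ω).leafSum (test t v)) μ := by
    have h1 := hint2.re
    refine h1.congr (Filter.Eventually.of_forall fun ω => ?_)
    simp only
    rw [← test_eq]
    exact Complex.ofReal_re _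
  refine ⟨hint3, ?_⟩
  have h1 : ((∫ ω, (π ω).leafSum (test t v) ∂μ : ℝ) : ℂ) =
      ∫ ω, (((π ω).leafSum (test t v) : ℝ) : ℂ) ∂μ := (integral_complex_ofReal).symm
  rw [h1]
  simp only [test_eq]
  rw [integral_finsetSum _ fun a _ => integrable_finsetSum _ fun b _ => (hint a b).const_mul _]
  have h2 : avgOutput μ π (pureState v) = (q : ℂ) • Φ (pureState v) := by
    rw [← hs.output _ hst, smul_smul, mul_inv_cancel₀, one_smul]
    exact_mod_cast hq.ne'
  rw [Finset.mul_sum]
  refine Finset.sum_congr rfl fun a _ => ?_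
  rw [integral_finsetSum _ fun b _ => (hint a b).const_mul _, Finset.mul_sum]
  refine Finset.sum_congr rfl fun b _ => ?_
  rw [integral_const_mul]
  have h3 : ∫ ω, (π ω).output (pureState v) a b ∂μ = (q : ℂ) * Φ (pureState v) a b := by
    have := congrFun (congrFun h2 a) b
    simpa [avgOutput] using this
  rw [h3]
  ring

/-! ### The channel -/

/-- The Schur multiplier `X ↦ (⟨x_a, x_b⟩ X_{ab})`. -/
def schur {D : ℕ} (x : Fin d → Fin D → ℝ) : Op d →ₗ[ℂ] Op d where
  toFun X := Matrix.of fun a b => ((∑ i, x a i * x b i : ℝ) : ℂ) * X a b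
  map_add' X Y := by ext a b; simp [mul_add]
  map_smul' c X := by ext a b; simp; ring

theorem schur_isChannel {D : ℕ} (x : Fin d → Fin D → ℝ) (hx : ∀ a, ∑ i, x a i ^ 2 = 1) :
    IsChannel (schur x) := by
  refine ⟨⟨D, fun i => Matrix.diagonal fun a => (x a i : ℂ), fun X => ?_⟩, fun X => ?_⟩
  · ext a b
    rw [Matrix.sum_apply]
    simp only [schur, LinearMap.coe_mk, AddHom.coe_mk, Matrix.of_apply, Complex.ofReal_sum]
    rw [Finset.sum_mul]
    refine Finset.sum_congr rfl fun i _ => ?_
    rw [diagonal_conjTranspose, Matrix.mul_diagonal, Matrix.diagonal_mul]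
    simp only [Pi.star_apply, RCLike.star_def, Complex.conj_ofReal]
    push_cast
    ring
  · simp only [Matrix.trace, schur, LinearMap.coe_mk, AddHom.coe_mk, Matrix.diag_apply,
      Matrix.of_apply]
    refine Finset.sum_congr rfl fun a _ => ?_
    have h : ∑ i, x a i * x a i = 1 := by
      rw [← hx a]
      exact Finset.sum_congr rfl fun i _ => (sq _).symm
    rw [h, Complex.ofReal_one, one_mul]

theorem schur_form {D : ℕ} (x : Fin d → Fin D → ℝ) (t v : Fin d → ℂ) :
    ∑ a, ∑ b, star (t a) * t b * schur x (pureState v) a b =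
      ((∑ i, ‖∑ a, star (t a) * x a i * v a‖ ^ 2 : ℝ) : ℂ) := by
  rw [Complex.ofReal_sum]
  have h3 : ∀ i : Fin D, ((‖∑ a, star (t a) * x a i * v a‖ ^ 2 : ℝ) : ℂ) =
      ∑ a, ∑ b, star (t a) * t b * ((x a i * x b i : ℝ) * (v a * star (v b))) := by
    intro c
    rw [Complex.ofReal_pow, ← Complex.mul_conj', ← RCLike.star_def, star_sum,
      Finset.sum_mul_sum]
    refine Finset.sum_congr rfl fun a _ => Finset.sum_congr rfl fun b _ => ?_
    rw [star_mul', star_mul', star_star]
    simp only [RCLike.star_def, Complex.conj_ofReal]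
    push_cast
    ring
  simp only [h3]
  symm
  rw [Finset.sum_comm]
  refine Finset.sum_congr rfl fun a _ => ?_
  rw [Finset.sum_comm]
  refine Finset.sum_congr rfl fun b _ => ?_
  rw [← Finset.mul_sum, ← Finset.sum_mul]
  congr 1
  simp only [schur, LinearMap.coe_mk, AddHom.coe_mk, Matrix.of_apply, pureState, vecMulVec_apply,
    Pi.star_apply, Complex.ofReal_sum]

/-- The bound for one successful run. -/
theorem leaf_bound {D : ℕ} {x : Fin d → Fin D → ℝ} {n : Fin D → Fin d}
    (h3 : ∀ g : Fin D → ℂ, g ≠ 0 →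
      3 * (Finset.univ.filter fun a : Fin d => ∑ i, (x a i : ℂ) * g i = 0).card < d)
    (h4 : ∀ g : Fin D → ℂ, g = 0 ∨ ∃ a, ∑ i, ‖g i‖ ^ 2 ≤ 4 * ‖∑ i, (x a i : ℂ) * g i‖ ^ 2)
    {L : Op2 d} (H1 : ∀ a a', a ≠ a' → ∀ c, L (a, c) (a', 0) = 0)
    (H2 : ∀ a c, L (a, c) (a, 0) = ∑ i, (x a i : ℂ) * L (n i, c) (n i, 0))
    (H3 : ∀ a, ∑ c, ‖L (a, c) (a, 0)‖ ^ 2 ≤ 1) :
    ∑ i, ∑ c, ‖L (n i, c) (n i, 0)‖ ^ 2 ≤ 8 * big L := by
  classical
  set g : Fin 2 → Fin D → ℂ := fun c i => L (n i, c) (n i, 0) with hg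
  by_cases h0 : ∀ c, g c = 0
  · have h5 : ∑ i, ∑ c, ‖L (n i, c) (n i, 0)‖ ^ 2 = 0 := by
      refine Finset.sum_eq_zero fun i _ => Finset.sum_eq_zero fun c _ => ?_
      have := congrFun (h0 c) i
      simp only [hg, Pi.zero_apply] at this
      rw [this]
      simp
    rw [h5]
    exact mul_nonneg (by norm_num) (big_nonneg L)
  · push Not at h0
    obtain ⟨c, hc⟩ := h0
    have hbig : big L = 1 := by
      unfold big
      rw [if_pos]
      set κ : Fin d → ℂ := fun a => L (a, c) (a, 0) with hκ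
      have hK : (Matrix.of fun (a : Fin d) (p : Fin d × Fin 2) =>
          if p = (a, c) then (1 : ℂ) else 0) * L *
          (Matrix.of fun (p : Fin d × Fin 2) (a : Fin d) => if p = (a, 0) then (1 : ℂ) else 0) =
          Matrix.diagonal κ := by
        ext a b
        rw [Matrix.mul_apply]
        simp only [Matrix.of_apply, mul_ite, mul_one, mul_zero, Finset.sum_ite_eq',
          Finset.mem_univ, if_true]
        rw [Matrix.mul_apply]
        simp only [Matrix.of_apply, ite_mul, one_mul, zero_mul, Finset.sum_ite_eq',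
          Finset.mem_univ, if_true]
        by_cases hab : a = b
        · subst hab; rw [Matrix.diagonal_apply_eq]
        · rw [Matrix.diagonal_apply_ne _ hab]; exact H1 a b hab c
      have hr1 : (Matrix.diagonal κ).rank ≤ L.rank := by
        rw [← hK]
        exact (Matrix.rank_mul_le_left _ _).trans (Matrix.rank_mul_le_right _ _)
      rw [Matrix.rank_diagonal] at hr1
      have hz := h3 (g c) hc
      have hz2 : (Finset.univ.filter fun a : Fin d => ∑ i, (x a i : ℂ) * g c i = 0) =
          Finset.univ.filter fun a : Fin d => κ a = 0 := by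
        refine Finset.filter_congr fun a _ => ?_
        rw [hκ]
        simp only
        rw [H2 a c]
      rw [hz2] at hz
      have hc2 : Fintype.card {a // κ a ≠ 0} + (Finset.univ.filter fun a : Fin d => κ a = 0).card
          = d := by
        rw [Fintype.card_subtype, add_comm, Finset.card_filter_add_card_filter_not]
        simp
      omega
    rw [hbig, Finset.sum_comm]
    have h6 : ∀ c, ∑ i, ‖L (n i, c) (n i, 0)‖ ^ 2 ≤ 4 := by
      intro c
      rcases h4 (g c) with h | ⟨a, ha⟩
      · have h5 : ∑ i, ‖L (n i, c) (n i, 0)‖ ^ 2 = 0 := by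
          refine Finset.sum_eq_zero fun i _ => ?_
          have := congrFun h i
          simp only [hg, Pi.zero_apply] at this
          rw [this]
          simp
        rw [h5]; norm_num
      · refine ha.trans ?_
        have h7 : ∑ i, (x a i : ℂ) * g c i = L (a, c) (a, 0) := (H2 a c).symm
        rw [h7]
        have h8 : ‖L (a, c) (a, 0)‖ ^ 2 ≤ 1 := by
          refine le_trans ?_ (H3 a)
          exact Finset.single_le_sum (f := fun c => ‖L (a, c) (a, 0)‖ ^ 2)
            (fun _ _ => sq_nonneg _) (Finset.mem_univ c)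
        linarith
    calc ∑ c, ∑ i, ‖L (n i, c) (n i, 0)‖ ^ 2 ≤ ∑ _c : Fin 2, (4 : ℝ) :=
          Finset.sum_le_sum fun c _ => h6 c
      _ = 8 * 1 := by norm_num

/-- **Main bound.** -/
theorem main_bound {D : ℕ} {x : Fin d → Fin D → ℝ} {n : Fin D → Fin d}
    (h1 : ∀ a, ∑ i, x a i ^ 2 = 1) (h2 : ∀ i, x (n i) = Pi.single i 1)
    (h3 : ∀ g : Fin D → ℂ, g ≠ 0 →
      3 * (Finset.univ.filter fun a : Fin d => ∑ i, (x a i : ℂ) * g i = 0).card < d)
    (h4 : ∀ g : Fin D → ℂ, g = 0 ∨ ∃ a, ∑ i, ‖g i‖ ^ 2 ≤ 4 * ‖∑ i, (x a i : ℂ) * g i‖ ^ 2)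
    {Ω : Type} [MeasurableSpace Ω] {μ : Measure Ω} {π : Ω → Protocol d}
    {R : ℕ} (hP : IsProtocol μ π R) {q : ℝ} (hq : 0 < q)
    (hs : Simulates μ π (schur x) q) : q * D ≤ 8 * 2 ^ R := by
  classical
  have hprob := hP.prob
  have hkey : ∀ (t v : Fin d → ℂ), nsq v = 1 →
      Integrable (fun ω => (π ω).leafSum (test t v)) μ ∧
      ∫ ω, (π ω).leafSum (test t v) ∂μ = q * ∑ i, ‖∑ a, star (t a) * x a i * v a‖ ^ 2 := by
    intro t v hv
    obtain ⟨ha, hb⟩ := integral_test hP hq hs hv t
    refine ⟨ha, ?_⟩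
    rw [schur_form] at hb
    exact_mod_cast hb
  have hns : ∀ a : Fin d, nsq (Pi.single a (1 : ℂ) : Fin d → ℂ) = 1 := by
    intro a
    unfold nsq
    rw [Finset.sum_eq_single a]
    · simp
    · intro b _ hb; simp [Pi.single_eq_of_ne hb]
    · intro h; exact absurd (Finset.mem_univ _) h
  have hz : ∀ (t v : Fin d → ℂ), nsq v = 1 →
      ∑ i, ‖∑ a, star (t a) * x a i * v a‖ ^ 2 = 0 →
      ∀ᵐ ω ∂μ, (π ω).AllLeaves (fun L => test t v L = 0) := by
    intro t v hv h0
    obtain ⟨ha, hb⟩ := hkey t v hv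
    rw [h0, mul_zero] at hb
    have h5 := (integral_eq_zero_iff_of_nonneg_ae (Filter.Eventually.of_forall fun ω =>
      leafSum_nonneg (π ω) fun L => test_nonneg t v L) ha).1 hb
    filter_upwards [h5] with ω hω
    exact allLeaves_eq_zero (fun L => test_nonneg t v L) hω
  -- diagonality
  have hA : ∀ᵐ ω ∂μ, ∀ a a' : Fin d, a ≠ a' →
      (π ω).AllLeaves (fun L => ∀ c, L (a, c) (a', 0) = 0) := by
    rw [ae_all_iff]
    intro a
    rw [ae_all_iff]
    intro a'
    by_cases haa : a = a'
    · exact Filter.Eventually.of_forall fun ω h => absurd haa h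
    have h0 := hz (Pi.single a 1) (Pi.single a' 1) (hns a') (by
      refine Finset.sum_eq_zero fun i _ => ?_
      rw [Finset.sum_eq_zero, norm_zero, zero_pow two_ne_zero]
      intro b _
      by_cases hb : b = a
      · subst hb; rw [Pi.single_eq_of_ne haa, mul_zero]
      · rw [Pi.single_eq_of_ne hb, star_zero, zero_mul, zero_mul])
    filter_upwards [h0] with ω hω _
    refine AllLeaves.imp hω fun L hL c => ?_
    unfold test at hL
    have h5 := (Finset.sum_eq_zero_iff_of_nonneg fun _ _ => sq_nonneg _).1 hL c (Finset.mem_univ c)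
    have h6 := norm_eq_zero.1 (pow_eq_zero_iff two_ne_zero |>.1 h5)
    rw [Finset.sum_eq_single a] at h6
    · rw [Pi.single_eq_same, star_one, one_mul, mulVec_lift_single] at h6
      exact h6
    · intro b _ hb; rw [Pi.single_eq_of_ne hb, star_zero, zero_mul]
    · intro h; exact absurd (Finset.mem_univ _) h
  -- linear relations
  have hB : ∀ᵐ ω ∂μ, ∀ a : Fin d, (π ω).AllLeaves (fun L =>
      (∀ a a', a ≠ a' → ∀ c, L (a, c) (a', 0) = 0) →
      ∀ c, L (a, c) (a, 0) = ∑ i, (x a i : ℂ) * L (n i, c) (n i, 0)) := by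
    rw [ae_all_iff]
    intro a
    set z : Fin d → ℂ := Pi.single a 1 - ∑ i, (x a i : ℂ) • Pi.single (n i) (1 : ℂ) with hzdef
    -- consequence of the vanishing of the test
    have hcons : ∀ L : Op2 d, (∀ a a', a ≠ a' → ∀ c, L (a, c) (a', 0) = 0) →
        (∀ c, ∑ a', (L *ᵥ lift z) (a', c) = 0) →
        ∀ c, L (a, c) (a, 0) = ∑ i, (x a i : ℂ) * L (n i, c) (n i, 0) := by
      intro L hd hL c
      have h5 : ∀ b : Fin d, ∑ a', (L *ᵥ lift (Pi.single b 1)) (a', c) = L (b, c) (b, 0) := by
        intro b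
        simp only [mulVec_lift_single]
        rw [Finset.sum_eq_single b]
        · intro e _ he; exact hd e b he c
        · intro h; exact absurd (Finset.mem_univ _) h
      have h6 : lift z = lift (Pi.single a 1) -
          ∑ i, (x a i : ℂ) • lift (Pi.single (n i) (1 : ℂ)) := by
        funext p
        rw [hzdef]
        simp only [lift, Pi.sub_apply, Finset.sum_apply, Pi.smul_apply]
        split_ifs <;> simp
      have h7 := hL c
      rw [h6, mulVec_sub, Matrix.mulVec_sum] at h7
      simp only [Pi.sub_apply, Finset.sum_apply, mulVec_smul, Pi.smul_apply, smul_eq_mul,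
        Finset.sum_sub_distrib] at h7
      rw [h5, Finset.sum_comm] at h7
      simp only [← Finset.mul_sum, h5] at h7
      exact sub_eq_zero.1 h7
    have hrel : ∀ i, ∑ b, (x b i : ℂ) * z b = 0 := by
      intro i
      have h5 : ∀ e : Fin d, ∑ b, (x b i : ℂ) * (Pi.single e (1 : ℂ) : Fin d → ℂ) b = x e i := by
        intro e
        rw [Finset.sum_eq_single e]
        · rw [Pi.single_eq_same, mul_one]
        · intro b _ hb; rw [Pi.single_eq_of_ne hb, mul_zero]
        · intro h; exact absurd (Finset.mem_univ _) h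
      rw [hzdef]
      simp only [Pi.sub_apply, Finset.sum_apply, Pi.smul_apply, smul_eq_mul, mul_sub,
        Finset.sum_sub_distrib, Finset.mul_sum]
      rw [h5, Finset.sum_comm]
      have h6 : ∀ j : Fin D, ∑ b, (x b i : ℂ) * ((x a j : ℂ) *
          (Pi.single (n j) (1 : ℂ) : Fin d → ℂ) b) = (x a j : ℂ) * x (n j) i := by
        intro j
        rw [← h5 (n j), Finset.mul_sum]
        exact Finset.sum_congr rfl fun b _ => by ring
      rw [Finset.sum_congr rfl fun j _ => h6 j, Finset.sum_eq_single i]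
      · rw [h2 i, Pi.single_eq_same]; simp
      · intro j _ hj; rw [h2 j, Pi.single_eq_of_ne (Ne.symm hj)]; simp
      · intro h; exact absurd (Finset.mem_univ _) h
    by_cases hz0 : nsq z = 0
    · refine Filter.Eventually.of_forall fun ω => allLeaves_of_forall fun L hd => ?_
      refine hcons L hd fun c => ?_
      have h5 : z = 0 := by
        funext b
        have := (Finset.sum_eq_zero_iff_of_nonneg fun _ _ => sq_nonneg _).1 hz0 b
          (Finset.mem_univ b)
        exact norm_eq_zero.1 (pow_eq_zero_iff two_ne_zero |>.1 this)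
      have h6 : lift z = 0 := by
        funext p; rw [h5]; simp [lift]
      rw [h6]
      simp
    · have hzpos : 0 < nsq z := lt_of_le_of_ne (nsq_nonneg z) (Ne.symm hz0)
      set r : ℝ := Real.sqrt (nsq z) with hr
      have hrpos : 0 < r := Real.sqrt_pos.2 hzpos
      set v : Fin d → ℂ := ((r⁻¹ : ℝ) : ℂ) • z with hv
      have hvn : nsq v = 1 := by
        have h5 : nsq v = r⁻¹ ^ 2 * nsq z := by
          unfold nsq
          rw [Finset.mul_sum]
          refine Finset.sum_congr rfl fun b _ => ?_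
          rw [hv]
          simp only [Pi.smul_apply, smul_eq_mul, norm_mul, Complex.norm_real, Real.norm_eq_abs,
            mul_pow, sq_abs]
        rw [h5, inv_pow, hr, Real.sq_sqrt hzpos.le]
        exact inv_mul_cancel₀ hz0
      have h0 := hz (fun _ => 1) v hvn (by
        refine Finset.sum_eq_zero fun i _ => ?_
        have h5 : ∑ b, star (1 : ℂ) * x b i * v b = ((r⁻¹ : ℝ) : ℂ) * ∑ b, (x b i : ℂ) * z b := by
          rw [Finset.mul_sum]
          refine Finset.sum_congr rfl fun b _ => ?_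
          rw [hv, star_one, Pi.smul_apply, smul_eq_mul]
          ring
        rw [h5, hrel, mul_zero, norm_zero, zero_pow two_ne_zero])
      filter_upwards [h0] with ω hω
      refine AllLeaves.imp hω fun L hL hd => hcons L hd fun c => ?_
      unfold test at hL
      have h5 := (Finset.sum_eq_zero_iff_of_nonneg fun _ _ => sq_nonneg _).1 hL c
        (Finset.mem_univ c)
      have h6 := norm_eq_zero.1 (pow_eq_zero_iff two_ne_zero |>.1 h5)
      have h7 : lift v = ((r⁻¹ : ℝ) : ℂ) • lift z := by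
        funext p
        rw [hv]
        simp only [lift, Pi.smul_apply]
        split_ifs <;> simp
      rw [h7, mulVec_smul] at h6
      simp only [star_one, one_mul, Pi.smul_apply, smul_eq_mul] at h6
      rw [← Finset.mul_sum] at h6
      rcases mul_eq_zero.1 h6 with h8 | h8
      · exfalso
        have : (r⁻¹ : ℝ) = 0 := by exact_mod_cast h8
        exact (inv_pos.2 hrpos).ne' this
      · exact h8
  -- the pointwise bound
  have hC : ∀ᵐ ω ∂μ, ∑ i, (π ω).leafSum (test (Pi.single (n i) 1) (Pi.single (n i) 1)) ≤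
      8 * 2 ^ R := by
    filter_upwards [hA, hB] with ω hAω hBω
    have hdiag : (π ω).AllLeaves (fun L => ∀ a a', a ≠ a' → ∀ c, L (a, c) (a', 0) = 0) :=
      AllLeaves.forall fun a => AllLeaves.forall fun a' => AllLeaves.forall fun h => hAω a a' h
    have hrel : (π ω).AllLeaves (fun L => ∀ a c, L (a, c) (a, 0) =
        ∑ i, (x a i : ℂ) * L (n i, c) (n i, 0)) :=
      AllLeaves.imp (AllLeaves.and hdiag (AllLeaves.forall fun a => hBω a)) fun L hL a c => hL.2 a hL.1 c
    have hcontr : (π ω).AllLeaves (fun L => ∀ a : Fin d, ∑ c, ‖L (a, c) (a, 0)‖ ^ 2 ≤ 1) := by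
      refine AllLeaves.forall fun a => ?_
      refine AllLeaves.imp (allLeaves_le_leafSum
        (f := fun L => nsq (L *ᵥ lift (Pi.single a 1))) fun L => nsq_nonneg _) fun L hL => ?_
      have h5 := hL.trans (leafSum_nsq_le (hP.valid ω) _)
      rw [nsq_lift, hns] at h5
      refine le_trans ?_ h5
      unfold nsq
      rw [Fintype.sum_prod_type]
      simp only [mulVec_lift_single]
      exact Finset.single_le_sum
        (f := fun b => ∑ c, ‖L (b, c) (a, 0)‖ ^ 2)
        (fun j _ => Finset.sum_nonneg fun _ _ => sq_nonneg _) (Finset.mem_univ a)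
    have hle : (π ω).AllLeaves (fun L => ∑ i, test (Pi.single (n i) 1) (Pi.single (n i) 1) L ≤
        8 * big L) := by
      refine AllLeaves.imp (AllLeaves.and (AllLeaves.and hdiag hrel) hcontr) fun L hL => ?_
      have h5 := leaf_bound h3 h4 hL.1.1 hL.1.2 hL.2
      refine le_trans (le_of_eq ?_) h5
      refine Finset.sum_congr rfl fun i _ => Finset.sum_congr rfl fun c _ => ?_
      rw [Finset.sum_eq_single (n i)]
      · rw [Pi.single_eq_same, star_one, one_mul, mulVec_lift_single]
      · intro b _ hb; rw [Pi.single_eq_of_ne hb, star_zero, zero_mul]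
      · intro h; exact absurd (Finset.mem_univ _) h
    rw [← leafSum_sum]
    calc (π ω).leafSum (fun L => ∑ i, test (Pi.single (n i) 1) (Pi.single (n i) 1) L)
        ≤ (π ω).leafSum (fun L => 8 * big L) := leafSum_mono_all hle
      _ = 8 * (π ω).leafSum (fun L => big L) := leafSum_mul _ _ _
      _ ≤ 8 * 2 ^ (π ω).rounds := by
          exact mul_le_mul_of_nonneg_left (leafSum_big_le (hP.valid ω)) (by norm_num)
      _ ≤ 8 * 2 ^ R := by
          have := pow_le_pow_right₀ (show (1 : ℝ) ≤ 2 by norm_num) (hP.rounds_le ω)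
          linarith
  -- integration
  have hD : ∀ i, ∫ ω, (π ω).leafSum (test (Pi.single (n i) 1) (Pi.single (n i) 1)) ∂μ = q := by
    intro i
    rw [(hkey _ _ (hns _)).2]
    have h5 : ∀ j, ∑ b, star ((Pi.single (n i) (1 : ℂ) : Fin d → ℂ) b) * x b j *
        (Pi.single (n i) (1 : ℂ) : Fin d → ℂ) b = x (n i) j := by
      intro j
      rw [Finset.sum_eq_single (n i)]
      · rw [Pi.single_eq_same, star_one, one_mul, mul_one]
      · intro b _ hb; rw [Pi.single_eq_of_ne hb, mul_zero]
      · intro h; exact absurd (Finset.mem_univ _) h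
    simp only [h5]
    have h6 : ∑ j, ‖(x (n i) j : ℂ)‖ ^ 2 = 1 := by
      rw [← h1 (n i)]
      refine Finset.sum_congr rfl fun j _ => ?_
      rw [Complex.norm_real, Real.norm_eq_abs, sq_abs]
    rw [h6, mul_one]
  have hE : ∫ ω, ∑ i, (π ω).leafSum (test (Pi.single (n i) 1) (Pi.single (n i) 1)) ∂μ =
      q * D := by
    rw [integral_finsetSum _ fun i _ => (hkey _ _ (hns _)).1]
    simp only [hD]
    simp [mul_comm]
  rw [← hE]
  have hint : Integrable (fun ω => ∑ i, (π ω).leafSum
      (test (Pi.single (n i) 1) (Pi.single (n i) 1))) μ :=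
    integrable_finsetSum _ fun i _ => (hkey _ _ (hns _)).1
  calc ∫ ω, ∑ i, (π ω).leafSum (test (Pi.single (n i) 1) (Pi.single (n i) 1)) ∂μ
      ≤ ∫ _ω, (8 * 2 ^ R : ℝ) ∂μ := integral_mono_ae hint (integrable_const _) hC
    _ = 8 * 2 ^ R := by simp

end Pool.Agent.N666.CS
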