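import Pool.Agent.N666.CS.Defs

/-!
# Sums over the successful leaves of a protocol
-/

set_option autoImplicit false

namespace Pool.Agent.N666.CS

open Matrix MeasureTheory
open scoped Kronecker ComplexOrder

variable {d : ℕ}

/-- Sum of `f L` over the operators `L` of the successful runs. -/
def Protocol.leafSum {E : Type*} [AddCommMonoid E] : Protocol d → (Op2 d → E) → E
  | .stop s, f => if s then f 1 else 0
  | .unitary U next, f => next.leafSum fun L => f (L * U)
  | .measure _ P next, f => ∑ i, (next i).leafSum fun L => f (L * P i)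

/-- `p L` holds for the operators `L` of all successful runs. -/
def Protocol.AllLeaves : Protocol d → (Op2 d → Prop) → Prop
  | .stop s, p => s = true → p 1
  | .unitary U next, p => next.AllLeaves fun L => p (L * U)
  | .measure _ P next, p => ∀ i, (next i).AllLeaves fun L => p (L * P i)

theorem run_eq (π : Protocol d) : ∀ ρ : Op2 d, π.run ρ = π.leafSum fun L => L * ρ * Lᴴ := by
  induction π with
  | stop s => intro ρ; cases s <;> simp [Protocol.run, Protocol.leafSum]
  | unitary U next ih =>
    intro ρ
    simp only [Protocol.run, Protocol.leafSum]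
    rw [ih]
    congr 1
    funext L
    simp only [conjTranspose_mul, Matrix.mul_assoc]
  | measure k P next ih =>
    intro ρ
    simp only [Protocol.run, Protocol.leafSum]
    refine Finset.sum_congr rfl fun i _ => ?_
    rw [ih]
    congr 1
    funext L
    simp only [conjTranspose_mul, Matrix.mul_assoc]

theorem map_leafSum {E F : Type*} [AddCommMonoid E] [AddCommMonoid F] (g : E →+ F)
    (π : Protocol d) : ∀ f : Op2 d → E, g (π.leafSum f) = π.leafSum fun L => g (f L) := by
  induction π with
  | stop s => intro f; cases s <;> simp [Protocol.leafSum]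
  | unitary U next ih => intro f; simp only [Protocol.leafSum]; rw [ih]
  | measure k P next ih =>
    intro f
    simp only [Protocol.leafSum, map_sum]
    exact Finset.sum_congr rfl fun i _ => ih i _

theorem leafSum_add {E : Type*} [AddCommMonoid E] (π : Protocol d) :
    ∀ f g : Op2 d → E, π.leafSum (fun L => f L + g L) = π.leafSum f + π.leafSum g := by
  induction π with
  | stop s => intro f g; cases s <;> simp [Protocol.leafSum]
  | unitary U next ih => intro f g; simp only [Protocol.leafSum]; rw [ih]
  | measure k P next ih =>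
    intro f g
    simp only [Protocol.leafSum]
    rw [← Finset.sum_add_distrib]
    exact Finset.sum_congr rfl fun i _ => ih i _ _

theorem leafSum_zero {E : Type*} [AddCommMonoid E] (π : Protocol d) :
    π.leafSum (fun _ => (0 : E)) = 0 := by
  induction π with
  | stop s => cases s <;> simp [Protocol.leafSum]
  | unitary U next ih => simpa only [Protocol.leafSum] using ih
  | measure k P next ih =>
    simp only [Protocol.leafSum]
    exact Finset.sum_eq_zero fun i _ => ih i

theorem leafSum_sum {E ι : Type*} [AddCommMonoid E] (π : Protocol d) (s : Finset ι)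
    (f : ι → Op2 d → E) : π.leafSum (fun L => ∑ i ∈ s, f i L) = ∑ i ∈ s, π.leafSum (f i) := by
  classical
  induction s using Finset.induction_on with
  | empty => simp [leafSum_zero]
  | insert a s ha ih =>
    simp only [Finset.sum_insert ha]
    rw [leafSum_add, ih]

theorem leafSum_mono_all {π : Protocol d} :
    ∀ {f g : Op2 d → ℝ}, π.AllLeaves (fun L => f L ≤ g L) → π.leafSum f ≤ π.leafSum g := by
  induction π with
  | stop s =>
    intro f g h
    cases s
    · simp [Protocol.leafSum]
    · simpa [Protocol.leafSum] using h rfl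
  | unitary U next ih => intro f g h; exact ih h
  | measure k P next ih =>
    intro f g h
    exact Finset.sum_le_sum fun i _ => ih i (h i)

theorem allLeaves_of_forall {π : Protocol d} :
    ∀ {p : Op2 d → Prop}, (∀ L, p L) → π.AllLeaves p := by
  induction π with
  | stop s => intro p h _; exact h 1
  | unitary U next ih => intro p h; exact ih fun L => h _
  | measure k P next ih => intro p h i; exact ih i fun L => h _

theorem leafSum_mono (π : Protocol d) {f g : Op2 d → ℝ} (h : ∀ L, f L ≤ g L) :
    π.leafSum f ≤ π.leafSum g := leafSum_mono_all (allLeaves_of_forall h)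

theorem leafSum_nonneg (π : Protocol d) {f : Op2 d → ℝ} (h : ∀ L, 0 ≤ f L) :
    0 ≤ π.leafSum f := by
  have := leafSum_mono π (f := fun _ => 0) h
  rwa [leafSum_zero] at this

theorem leafSum_mul (π : Protocol d) (c : ℝ) (f : Op2 d → ℝ) :
    π.leafSum (fun L => c * f L) = c * π.leafSum f :=
  (map_leafSum (AddMonoidHom.mulLeft c) π f).symm

theorem AllLeaves.imp {π : Protocol d} : ∀ {p q : Op2 d → Prop}, π.AllLeaves p →
    (∀ L, p L → q L) → π.AllLeaves q := by
  induction π with
  | stop s => intro p q h hpq hs; exact hpq _ (h hs)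
  | unitary U next ih => intro p q h hpq; exact ih h fun L => hpq _
  | measure k P next ih => intro p q h hpq i; exact ih i (h i) fun L => hpq _

theorem AllLeaves.and {π : Protocol d} : ∀ {p q : Op2 d → Prop}, π.AllLeaves p →
    π.AllLeaves q → π.AllLeaves (fun L => p L ∧ q L) := by
  induction π with
  | stop s => intro p q h h' hs; exact ⟨h hs, h' hs⟩
  | unitary U next ih => intro p q h h'; exact ih h h'
  | measure k P next ih => intro p q h h' i; exact ih i (h i) (h' i)

theorem AllLeaves.forall {ι : Sort*} {π : Protocol d} : ∀ {p : ι → Op2 d → Prop},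
    (∀ i, π.AllLeaves (p i)) → π.AllLeaves (fun L => ∀ i, p i L) := by
  induction π with
  | stop s => intro p h hs i; exact h i hs
  | unitary U next ih => intro p h; exact ih h
  | measure k P next ih => intro p h i; exact ih i fun j => h j i

theorem allLeaves_le_leafSum {π : Protocol d} : ∀ {f : Op2 d → ℝ}, (∀ L, 0 ≤ f L) →
    π.AllLeaves (fun L => f L ≤ π.leafSum f) := by
  induction π with
  | stop s => intro f h hs; subst hs; simp [Protocol.leafSum]
  | unitary U next ih => intro f h; exact ih fun L => h _
  | measure k P next ih =>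
    intro f h i
    refine AllLeaves.imp (ih i (f := fun L => f (L * P i)) fun L => h _) fun L hL => ?_
    refine hL.trans ?_
    simp only [Protocol.leafSum]
    exact Finset.single_le_sum
      (f := fun i => (next i).leafSum fun L => f (L * P i))
      (fun j _ => leafSum_nonneg _ fun L => h _) (Finset.mem_univ i)

theorem allLeaves_eq_zero {π : Protocol d} {f : Op2 d → ℝ} (h : ∀ L, 0 ≤ f L)
    (h0 : π.leafSum f = 0) : π.AllLeaves (fun L => f L = 0) :=
  AllLeaves.imp (allLeaves_le_leafSum h) fun L hL => le_antisymm (by rwa [h0] at hL) (h L)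

theorem norm_leafSum_le (π : Protocol d) :
    ∀ f : Op2 d → ℂ, ‖π.leafSum f‖ ≤ π.leafSum fun L => ‖f L‖ := by
  induction π with
  | stop s => intro f; cases s <;> simp [Protocol.leafSum]
  | unitary U next ih => intro f; exact ih _
  | measure k P next ih =>
    intro f
    exact (norm_sum_le _ _).trans (Finset.sum_le_sum fun i _ => ih i _)

/-! ### The squared norm -/

/-- squared norm of a vector -/
noncomputable def nsq {ι : Type*} [Fintype ι] (v : ι → ℂ) : ℝ := ∑ i, ‖v i‖ ^ 2

theorem star_dot_self {ι : Type*} [Fintype ι] (v : ι → ℂ) : star v ⬝ᵥ v = (nsq v : ℂ) := by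
  simp only [dotProduct, nsq, Pi.star_apply, Complex.ofReal_sum]
  refine Finset.sum_congr rfl fun i _ => ?_
  rw [RCLike.star_def, RCLike.conj_mul]
  simp

theorem nsq_nonneg {ι : Type*} [Fintype ι] (v : ι → ℂ) : 0 ≤ nsq v :=
  Finset.sum_nonneg fun _ _ => sq_nonneg _

theorem nsq_mulVec {ι : Type*} [Fintype ι] [DecidableEq ι] (M : Matrix ι ι ℂ) (v : ι → ℂ) :
    (nsq (M *ᵥ v) : ℂ) = star v ⬝ᵥ ((Mᴴ * M) *ᵥ v) := by
  rw [← star_dot_self, star_mulVec, ← dotProduct_mulVec, mulVec_mulVec]

theorem leafSum_nsq_le {π : Protocol d} (hπ : π.Valid) :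
    ∀ w : Fin d × Fin 2 → ℂ, π.leafSum (fun L => nsq (L *ᵥ w)) ≤ nsq w := by
  induction π with
  | stop s =>
    intro w
    cases s
    · simp [Protocol.leafSum, nsq_nonneg]
    · simp [Protocol.leafSum]
  | unitary U next ih =>
    intro w
    obtain ⟨hU, hn⟩ := hπ
    simp only [Protocol.leafSum]
    have h1 : nsq (U *ᵥ w) = nsq w := by
      have : (nsq (U *ᵥ w) : ℂ) = nsq w := by
        rw [nsq_mulVec, show Uᴴ * U = 1 from hU.1, one_mulVec, star_dot_self]
      exact_mod_cast this
    calc (next.leafSum fun L => nsq ((L * U) *ᵥ w))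
        = next.leafSum fun L => nsq (L *ᵥ (U *ᵥ w)) := by simp only [mulVec_mulVec]
      _ ≤ nsq (U *ᵥ w) := ih hn _
      _ = nsq w := h1
  | measure k P next ih =>
    intro w
    obtain ⟨hH, hP, hs, hn⟩ := hπ
    simp only [Protocol.leafSum]
    have h1 : ∑ i, nsq (P i *ᵥ w) = nsq w := by
      have : ((∑ i, nsq (P i *ᵥ w) : ℝ) : ℂ) = nsq w := by
        rw [Complex.ofReal_sum]
        have h2 : ∀ i, (nsq (P i *ᵥ w) : ℂ) = star w ⬝ᵥ (P i *ᵥ w) := by
          intro i
          rw [nsq_mulVec, (hH i).eq, hP i i, if_pos rfl]
        rw [Finset.sum_congr rfl fun i _ => h2 i, ← dotProduct_sum, ← Matrix.sum_mulVec, hs,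
          one_mulVec, star_dot_self]
      exact_mod_cast this
    calc (∑ i, (next i).leafSum fun L => nsq ((L * P i) *ᵥ w))
        = ∑ i, (next i).leafSum fun L => nsq (L *ᵥ (P i *ᵥ w)) := by simp only [mulVec_mulVec]
      _ ≤ ∑ i, nsq (P i *ᵥ w) := Finset.sum_le_sum fun i _ => ih i (hn i) _
      _ = nsq w := h1

/-! ### Counting the runs whose operator has large rank -/

/-- `1` if the rank of `M` is larger than two thirds of `d`, else `0` -/
noncomputable def big (M : Op2 d) : ℝ := if 2 * d < 3 * M.rank then 1 else 0

theorem rank_eq_trace {ι : Type*} [Fintype ι] [DecidableEq ι] (P : Matrix ι ι ℂ)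
    (hP : P * P = P) : (P.rank : ℂ) = P.trace := by
  have h : LinearMap.IsProj (LinearMap.range (Matrix.toLin' P)) (Matrix.toLin' P) := by
    refine ⟨fun x => ⟨x, rfl⟩, ?_⟩
    rintro _ ⟨x, rfl⟩
    rw [← LinearMap.comp_apply, ← Matrix.toLin'_mul, hP]
  have h2 := h.trace
  rw [Matrix.trace_toLin'_eq] at h2
  rw [h2]
  rfl

theorem sum_rank {ι : Type*} [Fintype ι] [DecidableEq ι] {k : ℕ} (P : Fin k → Matrix ι ι ℂ)
    (hP : ∀ i, P i * P i = P i) (h1 : ∑ i, P i = 1) :
    ∑ i, (P i).rank = Fintype.card ι := by
  have : ((∑ i, (P i).rank : ℕ) : ℂ) = Fintype.card ι := by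
    push_cast
    rw [Finset.sum_congr rfl fun i _ => rank_eq_trace (P i) (hP i), ← Matrix.trace_sum, h1,
      Matrix.trace_one]
  exact_mod_cast this

theorem big_nonneg (M : Op2 d) : 0 ≤ big M := by
  unfold big; split_ifs <;> norm_num

theorem big_le_one (M : Op2 d) : big M ≤ 1 := by
  unfold big; split_ifs <;> norm_num

theorem big_mul_le (M N : Op2 d) (h : big N = 0) : big (M * N) = 0 := by
  unfold big at h ⊢
  split_ifs at h with h1
  · exact absurd h one_ne_zero
  · rw [if_neg]
    have : (M * N).rank ≤ N.rank := Matrix.rank_mul_le_right M N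
    omega

/-- The number of successful runs whose operator has rank larger than `2 d / 3` is at most
`2 ^ rounds`. -/
theorem leafSum_big_le {π : Protocol d} (hπ : π.Valid) :
    π.leafSum (fun L => big L) ≤ 2 ^ π.rounds := by
  suffices h : ∀ A : Op2 d, π.leafSum (fun L => big (L * A)) ≤ 2 ^ π.rounds by
    simpa using h 1
  induction π with
  | stop s =>
    intro A
    cases s
    · simp [Protocol.leafSum, Protocol.rounds]
    · simpa [Protocol.leafSum, Protocol.rounds] using big_le_one A
  | unitary U next ih =>
    intro A
    have := ih hπ.2 (U * A)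
    simpa only [Protocol.leafSum, Protocol.rounds, Matrix.mul_assoc] using this
  | measure k P next ih =>
    intro A
    obtain ⟨hH, hP, hs, hn⟩ := hπ
    simp only [Protocol.leafSum, Protocol.rounds]
    set m := Finset.univ.sup fun i => (next i).rounds with hm
    have h1 : ∀ i, (next i).leafSum (fun L => big (L * P i * A)) ≤ big (P i) * 2 ^ m := by
      intro i
      by_cases hb : big (P i) = 0
      · have h2 : ∀ L : Op2 d, big (L * P i * A) = 0 := by
          intro L
          by_contra hne
          unfold big at hb hne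
          split_ifs at hb with h3
          · exact absurd hb one_ne_zero
          · rw [if_neg] at hne
            · exact hne rfl
            · have h4 : (L * P i * A).rank ≤ (L * P i).rank := Matrix.rank_mul_le_left _ _
              have h5 : (L * P i).rank ≤ (P i).rank := Matrix.rank_mul_le_right _ _
              omega
        simp only [h2]
        rw [leafSum_zero, hb, zero_mul]
      · have h2 : big (P i) = 1 := by
          unfold big at hb ⊢
          split_ifs at hb ⊢ with h3
          · rfl
          · exact absurd rfl hb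
        rw [h2, one_mul]
        calc (next i).leafSum (fun L => big (L * P i * A))
            = (next i).leafSum (fun L => big (L * (P i * A))) := by simp only [Matrix.mul_assoc]
          _ ≤ 2 ^ (next i).rounds := ih i (hn i) _
          _ ≤ 2 ^ m := pow_le_pow_right₀ (by norm_num)
              (Finset.le_sup (f := fun i => (next i).rounds) (Finset.mem_univ i))
    have h2 : ∑ i, big (P i) ≤ 2 := by
      have hr := sum_rank P (fun i => by rw [hP i i, if_pos rfl]) hs
      rw [Fintype.card_prod, Fintype.card_fin, Fintype.card_fin] at hr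
      have h3 : ∑ i, big (P i) =
          ((Finset.univ.filter fun i => 2 * d < 3 * (P i).rank).card : ℝ) := by
        unfold big
        rw [Finset.sum_ite]
        simp
      rw [h3]
      by_contra hcon
      push Not at hcon
      have h4 : 3 ≤ (Finset.univ.filter fun i => 2 * d < 3 * (P i).rank).card := by
        have : (2 : ℝ) < ((Finset.univ.filter fun i => 2 * d < 3 * (P i).rank).card : ℕ) := hcon
        exact_mod_cast this
      have h5 : (Finset.univ.filter fun i => 2 * d < 3 * (P i).rank).card * (2 * d + 1) ≤
          ∑ i ∈ Finset.univ.filter fun i => 2 * d < 3 * (P i).rank, 3 * (P i).rank := by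
        rw [← smul_eq_mul, ← Finset.sum_const]
        refine Finset.sum_le_sum fun i hi => ?_
        rw [Finset.mem_filter] at hi
        omega
      have h6 : ∑ i ∈ Finset.univ.filter fun i => 2 * d < 3 * (P i).rank, 3 * (P i).rank ≤
          ∑ i, 3 * (P i).rank :=
        Finset.sum_le_sum_of_subset (Finset.filter_subset _ _)
      have h7 : ∑ i, 3 * (P i).rank = 3 * (d * 2) := by rw [← Finset.mul_sum, hr]
      rw [h7] at h6
      nlinarith
    calc (∑ i, (next i).leafSum fun L => big (L * P i * A))
        ≤ ∑ i, big (P i) * 2 ^ m := Finset.sum_le_sum fun i _ => h1 i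
      _ = (∑ i, big (P i)) * 2 ^ m := by rw [Finset.sum_mul]
      _ ≤ 2 * 2 ^ m := by gcongr
      _ = 2 ^ (1 + m) := by rw [pow_add, pow_one]

end Pool.Agent.N666.CS
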